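import Pool.Agent.H28.GS.Targets

/-! SKS: the structure theorem for the norms of every order. -/

set_option autoImplicit false

open Finset Filter Topology

namespace Pool.Agent.H86.GS

open Pool.Agent.H28.GS Pool.Agent.H31.GUF Pool.Agent.H31.DP
open Pool.Agent.H28.GU (Gw hat Dl aff T_PC)
open Pool.Agent.H91.LF (lz)

theorem abs_FF_le {l : ℕ} (h : Fin l → ℕ) (p : ℕ) (y : ℤ) : |FF h p y| ≤ 1 := by
  unfold FF
  rw [Finset.abs_prod]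
  refine Finset.prod_le_one (fun _ _ => abs_nonneg _) fun i _ => ?_
  unfold lz
  split_ifs
  · simp
  · unfold Pool.Agent.H24.MR.lam
    simp

/-- the logarithmic measure of a set of scales -/
theorem exc_le (x y : ℕ) (P Q R S : ℕ → Prop) [DecidablePred P] [DecidablePred Q]
    [DecidablePred R] [DecidablePred S] (hx : 0 < x)
    (h : ∀ N, 0 < N → P N → Q N ∨ R N ∨ S N) :
    ∑ N ∈ (Finset.Icc x y).filter P, (1 / (N : ℝ)) ≤
      ∑ N ∈ (Finset.Icc x y).filter Q, (1 / (N : ℝ)) +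
      ∑ N ∈ (Finset.Icc x y).filter R, (1 / (N : ℝ)) +
      ∑ N ∈ (Finset.Icc x y).filter S, (1 / (N : ℝ)) := by
  rw [Finset.sum_filter, Finset.sum_filter, Finset.sum_filter, Finset.sum_filter,
    ← Finset.sum_add_distrib, ← Finset.sum_add_distrib]
  refine Finset.sum_le_sum fun N hN => ?_
  have hN0 : 0 < N := lt_of_lt_of_le hx (Finset.mem_Icc.1 hN).1
  have h0 : (0 : ℝ) ≤ 1 / (N : ℝ) := by positivity
  by_cases hP : P N
  · rw [if_pos hP]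
    rcases h N hN0 hP with h1 | h1 | h1
    · rw [if_pos h1]
      split_ifs <;> linarith
    · rw [if_pos h1]
      split_ifs <;> linarith
    · rw [if_pos h1]
      split_ifs <;> linarith
  · rw [if_neg hP]
    split_ifs <;> linarith

open Classical in
/-- the structure theorem for the order `k` and the shifts `h` -/
def SK (k : ℕ) {l : ℕ} (h : Fin l → ℕ) : Prop :=
  ∀ (η ρ : ℝ) (W J : ℕ), 0 < η → 0 < ρ → 0 < W → 0 < J →
    ∃ W' J' K : ℕ, 0 < W' ∧ 0 < J' ∧ W ∣ W' ∧ J ∣ J' ∧ ∀ x y : ℕ, 0 < x → K * x ≤ y →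
      ∑ N ∈ (Finset.Icc x y).filter (fun N : ℕ => ¬ ∃ W₁ J₁ : ℕ, W ∣ W₁ ∧ W₁ ∣ W' ∧ J ∣ J₁ ∧
        J₁ ∣ J' ∧ UU k N (fun n => ((gs h (ce W₁ J₁ N (FF h 1)) n : ℝ) : ℂ)) ≤ η),
        (1 / (N : ℝ)) ≤ ρ * Real.log ((y : ℝ) / x)

/-- the energy -/
noncomputable def en {l : ℕ} (h : Fin l → ℕ) (W J N : ℕ) : ℝ :=
  ∑ n ∈ Finset.Icc (1 : ℤ) N, (ce W J N (FF h 1) n) ^ 2

theorem en_mono (hEN : T_EN) {l : ℕ} (h : Fin l → ℕ) {W J W' J' N : ℕ} (hW : 0 < W) (hJ : 0 < J)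
    (hN : 0 < N) (hW' : 0 < W') (hJ' : 0 < J') (h1 : W ∣ W') (h2 : J ∣ J') :
    en h W J N ≤ en h W' J' N := by
  have h3 := (hEN W J N (FF h 1) hW hJ hN (abs_FF_le h 1)).2.2.2 W' J' hW' hJ' h1 h2
  have h4 : 0 ≤ ∑ n ∈ Finset.Icc (1 : ℤ) N,
      (ce W' J' N (FF h 1) n - ce W J N (FF h 1) n) ^ 2 :=
    Finset.sum_nonneg fun _ _ => sq_nonneg _
  unfold en
  linarith

theorem en_inc (hEN : T_EN) {l : ℕ} (h : Fin l → ℕ) {W J W' J' N : ℕ} (hW : 0 < W) (hJ : 0 < J)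
    (hN : 0 < N) (hW' : 0 < W') (hJ' : 0 < J') (h1 : W ∣ W') (h2 : J ∣ J') (τ : ℝ) (hτ : 0 < τ)
    (h5 : τ * N < ∑ n ∈ Finset.Icc (1 : ℤ) N,
      |ce W' J' N (FF h 1) n - ce W J N (FF h 1) n|) :
    en h W J N + τ ^ 2 * N ≤ en h W' J' N := by
  have h3 := (hEN W J N (FF h 1) hW hJ hN (abs_FF_le h 1)).2.2.2 W' J' hW' hJ' h1 h2
  have hN' : (0 : ℝ) < N := by exact_mod_cast hN
  have hcs := sq_sum_le_card_mul_sum_sq (s := Finset.Icc (1 : ℤ) N)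
    (f := fun n => |ce W' J' N (FF h 1) n - ce W J N (FF h 1) n|)
  have hcard : ((Finset.Icc (1 : ℤ) N).card : ℝ) = N := by
    rw [Int.card_Icc]
    simp
  rw [hcard] at hcs
  simp only [sq_abs] at hcs
  have h6 : (τ * N) ^ 2 ≤ (∑ n ∈ Finset.Icc (1 : ℤ) N,
      |ce W' J' N (FF h 1) n - ce W J N (FF h 1) n|) ^ 2 :=
    pow_le_pow_left₀ (by positivity) h5.le 2
  have h7 : (N : ℝ) * (τ ^ 2 * N) ≤ N * ∑ n ∈ Finset.Icc (1 : ℤ) N,
      (ce W' J' N (FF h 1) n - ce W J N (FF h 1) n) ^ 2 := by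
    calc (N : ℝ) * (τ ^ 2 * N) = (τ * N) ^ 2 := by ring
      _ ≤ _ := h6.trans hcs
  have h8 := le_of_mul_le_mul_left h7 hN'
  unfold en
  linarith

theorem en_le (hEN : T_EN) {l : ℕ} (h : Fin l → ℕ) {W J N : ℕ} (hW : 0 < W) (hJ : 0 < J)
    (hN : 0 < N) : en h W J N ≤ N := by
  have h1 := (hEN W J N (FF h 1) hW hJ hN (abs_FF_le h 1)).1
  have hcard : ((Finset.Icc (1 : ℤ) N).card : ℝ) = N := by
    rw [Int.card_Icc]
    simp
  unfold en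
  calc ∑ n ∈ Finset.Icc (1 : ℤ) N, (ce W J N (FF h 1) n) ^ 2
      ≤ ∑ n ∈ Finset.Icc (1 : ℤ) N, (1 : ℝ) := by
        refine Finset.sum_le_sum fun n _ => ?_
        have := h1 n
        rw [← sq_abs]
        nlinarith [abs_nonneg (ce W J N (FF h 1) n)]
    _ = N := by rw [Finset.sum_const, nsmul_eq_mul, mul_one, hcard]

open Classical in
/-- the hypothesis on `τ` -/
def TA (d : ℕ) {l : ℕ} (h : Fin l → ℕ) (η τ : ℝ) : Prop :=
  ∀ (W J : ℕ) (ρ : ℝ), 0 < W → 0 < J → 0 < ρ →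
    ∃ δ' : ℝ, 0 < δ' ∧ ∃ K : ℕ, ∀ x y : ℕ, 0 < x → K * x ≤ y →
      ∑ N ∈ (Finset.Icc x y).filter (fun N : ℕ => ∃ (E : ℤ → ℝ) (φ : ℤ → ℤ → ℝ),
        (∀ n, |E n| ≤ 1) ∧ (∀ s j, |φ s j| ≤ 1) ∧
        ∑ n ∈ Finset.Icc (1 : ℤ) N, |E n - st W J N φ n| ≤ τ * N ∧
        η ≤ UU (d + 2) N (fun n => ((gs h E n : ℝ) : ℂ)) ∧
        UU (d + 1) N (fun n => ((gs h E n : ℝ) : ℂ)) < δ'),
        (1 / (N : ℝ)) ≤ ρ * Real.log ((y : ℝ) / x)

open Classical in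
theorem iter (hEN : T_EN) (d : ℕ) {l : ℕ} (h : Fin l → ℕ) (IH : SK (d + 1) h) (η τ ρ : ℝ)
    (hτ : 0 < τ) (hTA : TA d h η τ) (hρ : 0 < ρ) : ∀ (i W J : ℕ), 0 < W → 0 < J →
    ∃ W' J' K : ℕ, 0 < W' ∧ 0 < J' ∧ W ∣ W' ∧ J ∣ J' ∧ ∀ x y : ℕ, 0 < x → K * x ≤ y →
      ∑ N ∈ (Finset.Icc x y).filter (fun N : ℕ => ¬ ((∃ W₁ J₁ : ℕ, W ∣ W₁ ∧ W₁ ∣ W' ∧ J ∣ J₁ ∧
        J₁ ∣ J' ∧ UU (d + 2) N (fun n => ((gs h (ce W₁ J₁ N (FF h 1)) n : ℝ) : ℂ)) ≤ η) ∨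
        i * (τ ^ 2 * N) ≤ en h W' J' N)),
        (1 / (N : ℝ)) ≤ i * ρ * Real.log ((y : ℝ) / x) := by
  intro i
  induction i with
  | zero =>
    intro W J hW hJ
    refine ⟨W, J, 1, hW, hJ, dvd_rfl, dvd_rfl, fun x y hx hxy => ?_⟩
    rw [Finset.filter_false_of_mem]
    · simp
    · intro N _ hcon
      apply hcon
      right
      have : 0 ≤ en h W J N := Finset.sum_nonneg fun _ _ => sq_nonneg _
      simpa using this
  | succ i ih =>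
    intro W J hW hJ
    obtain ⟨Wi, Ji, Ki, hWi, hJi, dW, dJ, hi⟩ := ih W J hW hJ
    obtain ⟨δ', hδ', Ka, ha⟩ := hTA Wi Ji (ρ / 2) hWi hJi (by linarith)
    obtain ⟨Wj, Jj, Kb, hWj, hJj, dWj, dJj, hb⟩ := IH (δ' / 2) (ρ / 2) Wi Ji (by linarith)
      (by linarith) hWi hJi
    refine ⟨Wj, Jj, Ki + Ka + Kb, hWj, hJj, dW.trans dWj, dJ.trans dJj, fun x y hx hxy => ?_⟩
    have hxi : Ki * x ≤ y := by nlinarith
    have hxa : Ka * x ≤ y := by nlinarith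
    have hxb : Kb * x ≤ y := by nlinarith
    refine (exc_le x y _ _ _ _ hx ?_).trans
      ((add_le_add (add_le_add (hi x y hx hxi) (ha x y hx hxa)) (hb x y hx hxb)).trans
        (le_of_eq ?_))
    swap
    · push_cast
      ring
    intro N hN hcon
    by_contra hno
    have n1 := not_not.1 (fun hc => hno (Or.inl hc))
    have n2 := fun hc => hno (Or.inr (Or.inl hc))
    have n3 := not_not.1 (fun hc => hno (Or.inr (Or.inr hc)))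
    apply hcon
    rcases n1 with ⟨W₁, J₁, e1, e2, e3, e4, e5⟩ | n1
    · exact Or.inl ⟨W₁, J₁, e1, e2.trans dWj, e3, e4.trans dJj, e5⟩
    obtain ⟨W₁, J₁, e1, e2, e3, e4, e5⟩ := n3
    have hW₁ : 0 < W₁ := Nat.pos_of_dvd_of_pos e2 hWj
    have hJ₁ : 0 < J₁ := Nat.pos_of_dvd_of_pos e4 hJj
    by_cases hclose : ∑ n ∈ Finset.Icc (1 : ℤ) N,
        |ce W₁ J₁ N (FF h 1) n - ce Wi Ji N (FF h 1) n| ≤ τ * N
    · left
      refine ⟨W₁, J₁, dW.trans e1, e2, dJ.trans e3, e4, ?_⟩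
      by_contra hbig
      push Not at hbig
      apply n2
      obtain ⟨φ, hφ, hφe⟩ := (hEN Wi Ji N (FF h 1) hWi hJi hN (abs_FF_le h 1)).2.1
      refine ⟨ce W₁ J₁ N (FF h 1), φ, (hEN W₁ J₁ N (FF h 1) hW₁ hJ₁ hN (abs_FF_le h 1)).1, hφ,
        ?_, hbig.le, by linarith⟩
      simp only [← hφe]
      exact hclose
    · right
      push Not at hclose
      have f1 := en_inc hEN h hWi hJi hN hW₁ hJ₁ e1 e3 τ hτ hclose
      have f2 := en_mono hEN h hW₁ hJ₁ hN hWj hJj e2 e4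
      push_cast
      linarith

open Classical in
theorem sk_succ (hEN : T_EN) (d : ℕ) {l : ℕ} (h : Fin l → ℕ) (IH : SK (d + 1) h)
    (hT : ∀ η : ℝ, 0 < η → ∃ τ : ℝ, 0 < τ ∧ TA d h η τ) : SK (d + 2) h := by
  intro η ρ W J hη hρ hW hJ
  obtain ⟨τ, hτ, hTA⟩ := hT η hη
  obtain ⟨T, hT1⟩ := exists_nat_gt (1 / τ ^ 2)
  have hT2 : 1 < T * τ ^ 2 := by
    rwa [div_lt_iff₀ (by positivity)] at hT1
  have hT0 : (0 : ℝ) < T := by
    by_contra hcon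
    push Not at hcon
    nlinarith [sq_nonneg τ]
  obtain ⟨W', J', K, hW', hJ', dW, dJ, hK⟩ := iter hEN d h IH η τ (ρ / T) hτ hTA
    (by positivity) T W J hW hJ
  refine ⟨W', J', K, hW', hJ', dW, dJ, fun x y hx hxy => ?_⟩
  have h1 := hK x y hx hxy
  have e : (T : ℝ) * (ρ / T) = ρ := by field_simp
  rw [e] at h1
  refine le_trans ?_ h1
  refine Finset.sum_le_sum_of_subset_of_nonneg ?_ fun N _ _ => by positivity
  intro N hN
  rw [Finset.mem_filter] at hN ⊢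
  refine ⟨hN.1, ?_⟩
  rw [not_or]
  refine ⟨hN.2, ?_⟩
  have hN0 : 0 < N := lt_of_lt_of_le hx (Finset.mem_Icc.1 hN.1).1
  have hN0' : (0 : ℝ) < N := by exact_mod_cast hN0
  have h2 := en_le hEN h hW' hJ' hN0
  push Not
  nlinarith

theorem pf_SKS (hS2 : T_S2S) (hST : T_STS) (hEN : T_EN) : T_SKS := by
  intro k l h η ρ W J hk
  obtain ⟨d, rfl⟩ : ∃ d, k = d + 2 := ⟨k - 2, by omega⟩
  have key : ∀ d, SK (d + 2) h := by
    intro d
    induction d with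
    | zero => exact hS2 l h
    | succ d ih =>
      refine sk_succ hEN (d + 1) h ih fun η hη => ?_
      obtain ⟨τ, hτ, hTA⟩ := hST (d + 1) l η (by omega) hη
      exact ⟨τ, hτ, hTA h⟩
  exact key d η ρ W J

end Pool.Agent.H86.GS
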